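import Pool.Agent.H930.Fuj.Count

/-!
# Counting equations of large degree

Like `Pool.Agent.H930.Fuj.Count`, for equations whose degrees are at least twice the least common
multiples of the weights of their variables.
-/

set_option autoImplicit false
set_option linter.unusedSectionVars false

namespace Pool.Agent.H930.VA

open MvPolynomial Finset Pool.Agent.H930.Fuj

variable {ι κ : Type} [Fintype ι] [DecidableEq ι] [Fintype κ]

variable {a : ι → ℕ} {d : κ → ℕ} {f : κ → MvPolynomial ι ℂ} {v : ι → ℂ}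
  {R : Finset ι} {r : ι → ι} {g : ι → ℕ}

/-- If an equation does not vanish at `ext w` then its degree is at least `2 x`. -/
theorem le_degree (hs : State a v R r g) (j : κ)
    (hd : 0 < d j) (hf : IsWeightedHomogeneous a (f j) (d j)) (hv : eval v (f j) = 0)
    (hlcm : ∀ i ∈ (f j).vars, ∀ l ∈ (f j).vars, 2 * Nat.lcm (a i) (a l) ≤ d j)
    (ha : ∀ i, 0 < a i)
    {Q x : ℕ} (hx : ∀ s ∈ R, ∀ t ∈ R, s ≠ t → x ≤ Nat.lcm (g s) (g t))
    (w : ι → ℂ) (hw : ∀ t, w t ≠ 0 → (t ∈ R ∧ Q ∣ g t) ∨ (v t = 0 ∧ Q ∣ a t ∧ x ≤ a t))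
    (hne : eval (Fuj.ext a v r g w) (f j) ≠ 0) : Q ∣ d j ∧ 2 * x ≤ d j := by
  classical
  set z := Fuj.ext a v r g w with hz
  have hz1 : ∀ i, v i ≠ 0 → z i = v i * w (r i) ^ (a i / g (r i)) := by
    intro i hi
    rw [hz]; unfold Fuj.ext; rw [if_pos hi]
  have hz2 : ∀ i, v i = 0 → z i = w i := by
    intro i hi
    rw [hz]; unfold Fuj.ext; rw [if_neg (by simpa using hi)]
  -- nonzero coordinates of `z` have weights divisible by `Q`
  have hzQ : ∀ i, z i ≠ 0 → Q ∣ a i := by
    intro i hi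
    by_cases hvi : v i = 0
    · rw [hz2 i hvi] at hi
      rcases hw i hi with h | h
      · exact absurd hvi (hs.ne i h.1)
      · exact h.2.1
    · rw [hz1 i hvi] at hi
      have h1 : w (r i) ≠ 0 := by
        intro h0
        rw [h0, zero_pow (hs.exp_pos ha hvi).ne', mul_zero] at hi
        exact hi rfl
      rcases hw (r i) h1 with h | h
      · exact h.2.trans (hs.dvd i hvi)
      · exact absurd h.1 (hs.ne _ (hs.mem i hvi))
  have hsup : ∀ μ : ι →₀ ℕ, (∏ i, z i ^ μ i) ≠ 0 → ∀ i, μ i ≠ 0 → z i ≠ 0 := by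
    intro μ hμ i hi h0
    apply hμ
    exact Finset.prod_eq_zero (Finset.mem_univ i) (by rw [h0, zero_pow hi])
  -- a monomial which does not vanish
  obtain ⟨μ, hμ, hμz⟩ : ∃ μ ∈ (f j).support, (∏ i, z i ^ μ i) ≠ 0 := by
    by_contra hcon
    push Not at hcon
    apply hne
    rw [eval_eq']
    exact Finset.sum_eq_zero fun μ hμ => by rw [hcon μ hμ, mul_zero]
  have hdeg : ∀ μ ∈ (f j).support, Finsupp.weight a μ = d j := fun μ hμ =>
    hf (mem_support_iff.1 hμ)
  refine ⟨?_, ?_⟩
  · rw [← hdeg μ hμ]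
    exact dvd_weight fun i hi => hzQ i (hsup μ hμz i hi)
  -- a monomial with a coordinate outside the support of `v`
  by_cases hU : ∃ μ ∈ (f j).support, (∏ i, z i ^ μ i) ≠ 0 ∧ ∃ u, μ u ≠ 0 ∧ v u = 0
  · obtain ⟨μ', hμ', hμz', u, hu, hvu⟩ := hU
    have h1 := hsup μ' hμz' u hu
    rw [hz2 u hvu] at h1
    rcases hw u h1 with h | h
    · exact absurd hvu (hs.ne u h.1)
    · have h5 : u ∈ (f j).vars := by
        rw [mem_vars_iff_mem_support]
        exact ⟨μ', hμ', Finsupp.mem_support_iff.2 hu⟩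
      have h6 := hlcm u h5 u h5
      rw [Nat.lcm_self] at h6
      have := h.2.2
      omega
  push Not at hU
  -- two clusters
  by_cases h2 : ∃ i ∈ (f j).vars, ∃ l ∈ (f j).vars, v i ≠ 0 ∧ v l ≠ 0 ∧ r i ≠ r l
  · obtain ⟨i, hi, l, hl, hvi, hvl, hil⟩ := h2
    have h3 : i ≠ l := fun h => hil (by rw [h])
    have h4 := hx (r i) (hs.mem i hvi) (r l) (hs.mem l hvl) hil
    have h5 : Nat.lcm (g (r i)) (g (r l)) ≤ Nat.lcm (a i) (a l) := by
      refine Nat.le_of_dvd (Nat.lcm_pos (ha i) (ha l)) ?_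
      exact Nat.lcm_dvd ((hs.dvd i hvi).trans (Nat.dvd_lcm_left _ _))
        ((hs.dvd l hvl).trans (Nat.dvd_lcm_right _ _))
    have h6 := hlcm i hi l hl
    omega
  push Not at h2
  -- contradiction
  exfalso
  have hμ0 : μ ≠ 0 := by
    intro h0
    have := hdeg μ hμ
    rw [h0, map_zero] at this
    omega
  obtain ⟨i₀, hi₀⟩ : ∃ i, μ i ≠ 0 := by
    by_contra hcon
    push Not at hcon
    exact hμ0 (Finsupp.ext hcon)
  have hvars : ∀ μ ∈ (f j).support, ∀ i, μ i ≠ 0 → i ∈ (f j).vars := by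
    intro μ hμ i hi
    rw [mem_vars_iff_mem_support]
    exact ⟨μ, hμ, Finsupp.mem_support_iff.2 hi⟩
  have hvi₀ : v i₀ ≠ 0 := hU μ hμ hμz i₀ hi₀
  set t := r i₀ with ht
  have hone : ∀ i ∈ (f j).vars, v i ≠ 0 → r i = t := fun i hi hvi =>
    h2 i hi i₀ (hvars μ hμ i₀ hi₀) hvi hvi₀
  apply hne
  have hkey : ∀ μ ∈ (f j).support, (∏ i, z i ^ μ i) = (∏ i, v i ^ μ i) * w t ^ (d j / g t) := by
    intro μ hμ
    by_cases hS : ∀ i, μ i ≠ 0 → v i ≠ 0
    · have h5 : ∀ i, z i ^ μ i = v i ^ μ i * w t ^ (μ i * (a i / g t)) := by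
        intro i
        by_cases hi : μ i = 0
        · rw [hi]; simp
        · rw [hz1 i (hS i hi), hone i (hvars μ hμ i hi) (hS i hi), mul_pow, ← pow_mul,
            mul_comm (a i / g t)]
      rw [Finset.prod_congr rfl fun i _ => h5 i, Finset.prod_mul_distrib, Finset.prod_pow_eq_pow_sum]
      congr 2
      have h6 : (∑ i, μ i * (a i / g t)) * g t = d j := by
        rw [Finset.sum_mul, ← hdeg μ hμ, weight_eq_sum]
        refine Finset.sum_congr rfl fun i _ => ?_
        by_cases hi : μ i = 0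
        · rw [hi]; simp
        · have h7 := hs.dvd i (hS i hi)
          rw [hone i (hvars μ hμ i hi) (hS i hi)] at h7
          rw [mul_assoc, Nat.div_mul_cancel h7]
      have h8 : 0 < g t := hs.pos t (hs.mem i₀ hvi₀)
      rw [← h6, Nat.mul_div_cancel _ h8]
    · push Not at hS
      obtain ⟨u, hu, hvu⟩ := hS
      have h9 : (∏ i, v i ^ μ i) = 0 :=
        Finset.prod_eq_zero (Finset.mem_univ u) (by rw [hvu, zero_pow hu])
      rw [h9, zero_mul]
      by_contra hcon
      exact hU μ hμ hcon u hu hvu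
  rw [eval_eq'] at hv ⊢
  rw [Finset.sum_congr rfl fun μ hμ => by rw [hkey μ hμ, ← mul_assoc], ← Finset.sum_mul, hv,
    zero_mul]

/-- There are at least as many equations of degree at least `2 x` divisible by `Q` as clusters
divisible by `Q` and other weights at least `x` divisible by `Q`. -/
theorem card_le (hs : State a v R r g) (ha : ∀ i, 0 < a i)
    (hd : ∀ j, 0 < d j) (hf : ∀ j, IsWeightedHomogeneous a (f j) (d j))
    (hv : ∀ j, eval v (f j) = 0)
    (hlcm : ∀ j, ∀ i ∈ (f j).vars, ∀ l ∈ (f j).vars, 2 * Nat.lcm (a i) (a l) ≤ d j)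
    (hfree : ∀ z : ι → ℂ, z ≠ 0 → (∀ j, eval z (f j) = 0) →
      ∀ q : ℕ, (∀ i, z i ≠ 0 → q ∣ a i) → q = 1)
    {Q x : ℕ} (hQ : 2 ≤ Q) (hx : ∀ s ∈ R, ∀ t ∈ R, s ≠ t → x ≤ Nat.lcm (g s) (g t)) :
    (R.filter fun t => Q ∣ g t).card +
      (univ.filter fun u => v u = 0 ∧ Q ∣ a u ∧ x ≤ a u).card ≤
      (univ.filter fun j => Q ∣ d j ∧ 2 * x ≤ d j).card := by
  classical
  by_contra hcon
  push Not at hcon
  set T := R.filter fun t => Q ∣ g t with hT
  set U := univ.filter fun u => v u = 0 ∧ Q ∣ a u ∧ x ≤ a u with hU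
  have hdisj : Disjoint T U := by
    rw [Finset.disjoint_left]
    intro t ht hu
    rw [hT, mem_filter] at ht
    rw [hU, mem_filter] at hu
    exact hs.ne t ht.1 hu.2.1
  let V := T ∪ U
  have hV : V.card = T.card + U.card := Finset.card_union_of_disjoint hdisj
  -- extension by zero of the parameters
  let pad : ({t // t ∈ V} → ℂ) → ι → ℂ := fun w t => if h : t ∈ V then w ⟨t, h⟩ else 0
  have hpad : ∀ w t, pad w t ≠ 0 → (t ∈ R ∧ Q ∣ g t) ∨ (v t = 0 ∧ Q ∣ a t ∧ x ≤ a t) := by
    intro w t h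
    have h1 : t ∈ V := by
      by_contra hcon
      exact h (by simp [pad, hcon])
    rcases Finset.mem_union.1 h1 with h2 | h2
    · left
      rw [hT, mem_filter] at h2
      exact h2
    · right
      rw [hU, mem_filter] at h2
      exact h2.2
  let ξ : ι → MvPolynomial {t // t ∈ V} ℂ := fun t => if h : t ∈ V then X ⟨t, h⟩ else 0
  let θ : ι → MvPolynomial {t // t ∈ V} ℂ := fun i =>
    if v i ≠ 0 then C (v i) * ξ (r i) ^ (a i / g (r i)) else ξ i
  let P : κ → MvPolynomial {t // t ∈ V} ℂ := fun j => aeval θ (f j)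
  have hξ : ∀ w t, eval w (ξ t) = pad w t := by
    intro w t
    simp only [ξ, pad]
    split_ifs with h
    · rw [eval_X]
    · rw [map_zero]
  have hev : ∀ (w : {t // t ∈ V} → ℂ) (p : MvPolynomial ι ℂ),
      eval w (aeval θ p) = eval (Fuj.ext a v r g (pad w)) p := by
    intro w p
    have h1 : (eval w).comp (aeval θ : MvPolynomial ι ℂ →ₐ[ℂ] _).toRingHom =
        eval (Fuj.ext a v r g (pad w)) := by
      apply MvPolynomial.ringHom_ext
      · intro c; simp
      · intro i
        simp only [RingHom.comp_apply, AlgHom.toRingHom_eq_coe, RingHom.coe_coe, aeval_X, eval_X,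
          θ, Fuj.ext]
        split_ifs with h
        · rw [map_mul, map_pow, eval_C, hξ]
        · rw [hξ]
    exact congrArg (fun φ => φ p) (congrArg DFunLike.coe h1)
  obtain ⟨w, hw0, hw⟩ := Pool.Agent.H552R3.Tsen.exists_common_zero
    (fun j : {j // Q ∣ d j ∧ 2 * x ≤ d j} => P j) (fun j => by
      show eval 0 (aeval θ (f j)) = 0
      rw [hev]
      have h1 : pad 0 = 0 := by
        funext i
        simp [pad]
      rw [h1, hs.ext_zero ha]
      exact eval_zero_of_weighted (hd j) (hf j)) (by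
      rw [Fintype.card_subtype, Fintype.card_coe, hV]
      exact hcon)
  set z := Fuj.ext a v r g (pad w) with hz
  have hfz : ∀ j, eval z (f j) = 0 := by
    intro j
    by_contra hne
    have h1 := le_degree hs j (hd j) (hf j) (hv j) (hlcm j) ha hx (pad w) (hpad w) hne
    apply hne
    rw [hz, ← hev]
    exact hw ⟨j, h1⟩
  have hz0 : z ≠ 0 := by
    intro h
    apply hw0
    funext t
    have h1 := congrFun h t.1
    rw [hz] at h1
    unfold Fuj.ext at h1
    have h2 : pad w t.1 = w t := by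
      simp only [pad, dif_pos t.2, Subtype.coe_eta]
    rcases Finset.mem_union.1 t.2 with h3 | h3
    · rw [hT, mem_filter] at h3
      rw [if_pos (hs.ne _ h3.1), hs.fix _ h3.1, h2] at h1
      have h4 := (mul_eq_zero.1 h1).resolve_left (hs.ne _ h3.1)
      exact pow_eq_zero_iff (by
        have := hs.exp_pos ha (hs.ne _ h3.1)
        rw [hs.fix _ h3.1] at this
        exact this.ne') |>.1 h4
    · rw [hU, mem_filter] at h3
      rw [if_neg (by simpa using h3.2.1), h2] at h1
      exact h1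
  have h5 := hfree z hz0 hfz Q (by
    intro i hi
    by_cases hvi : v i = 0
    · rw [hz] at hi
      unfold Fuj.ext at hi
      rw [if_neg (by simpa using hvi)] at hi
      rcases hpad w i hi with h | h
      · exact absurd hvi (hs.ne i h.1)
      · exact h.2.1
    · rw [hz] at hi
      unfold Fuj.ext at hi
      rw [if_pos hvi] at hi
      have h1 : pad w (r i) ≠ 0 := by
        intro h0
        rw [h0, zero_pow (hs.exp_pos ha hvi).ne', mul_zero] at hi
        exact hi rfl
      rcases hpad w (r i) h1 with h | h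
      · exact h.2.trans (hs.dvd i hvi)
      · exact absurd h.1 (hs.ne _ (hs.mem i hvi)))
  omega

end Pool.Agent.H930.VA
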