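import Pool.Agent.H930.Fuj.LogTrick

/-!
# An inequality for multisets of positive integers with a factor two

If for every prime power `q` and every `x` at most as many elements `t ≥ x` of the multiset `X`
are divisible by `q` as elements `t ≥ 2 x` of the multiset `Y`, and `b` is the largest element of
`X`, then `∑_{t ∈ X} (t - 1) + (b - 1) ≤ ∑_{t ∈ Y} (t - 1)`.
-/

set_option autoImplicit false

namespace Pool.Agent.H930.VA

open ArithmeticFunction Finset Pool.Agent.H930.Fuj

theorem pow_ineq_A {w : ℕ} (hw : 1 ≤ w) : 4 ^ (2 * w - 1) ≤ (2 * w) ^ (w + 1) := by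
  rcases Nat.lt_or_ge w 8 with h | h
  · interval_cases w <;> norm_num
  · calc 4 ^ (2 * w - 1) ≤ 4 ^ (2 * (w + 1)) := Nat.pow_le_pow_right (by norm_num) (by omega)
      _ = 16 ^ (w + 1) := by rw [pow_mul]; norm_num
      _ ≤ (2 * w) ^ (w + 1) := Nat.pow_le_pow_left (by omega) _

theorem pow_ineq_B {t : ℕ} (ht : 1 ≤ t) : 8 ^ (t - 1) ≤ t ^ (t + 1) := by
  rcases Nat.lt_or_ge t 8 with h | h
  · interval_cases t <;> norm_num
  · calc 8 ^ (t - 1) ≤ 8 ^ (t + 1) := Nat.pow_le_pow_right (by norm_num) (by omega)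
      _ ≤ t ^ (t + 1) := Nat.pow_le_pow_left h _

theorem log_two_pos : 0 < Real.log 2 := Real.log_pos (by norm_num)

theorem log_four : Real.log 4 = 2 * Real.log 2 := by
  have : (4 : ℝ) = 2 ^ 2 := by norm_num
  rw [this, Real.log_pow]; norm_num

theorem log_eight : Real.log 8 = 3 * Real.log 2 := by
  have : (8 : ℝ) = 2 ^ 3 := by norm_num
  rw [this, Real.log_pow]; norm_num

theorem F_two_mul_le {w : ℕ} (hw : 1 ≤ w) : F (2 * w) * (2 * Real.log 2) ≤ (w : ℝ) + 1 := by
  have hw' : (1 : ℝ) ≤ w := by exact_mod_cast hw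
  have h2w : (1 : ℝ) < ((2 * w : ℕ) : ℝ) := by push_cast; linarith
  have hlog : 0 < Real.log ((2 * w : ℕ) : ℝ) := Real.log_pos h2w
  have h1 : ((4 : ℝ) ^ (2 * w - 1)) ≤ ((2 * w : ℕ) : ℝ) ^ (w + 1) := by
    exact_mod_cast pow_ineq_A hw
  have h2 := Real.log_le_log (by positivity) h1
  rw [Real.log_pow, Real.log_pow, log_four] at h2
  have h3 : ((2 * w - 1 : ℕ) : ℝ) = 2 * w - 1 := by
    rw [Nat.cast_sub (by omega)]; push_cast; ring
  rw [h3] at h2
  unfold F
  rw [div_mul_eq_mul_div, div_le_iff₀ hlog]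
  push_cast at h2 ⊢
  linarith

theorem le_F_two_mul {t : ℕ} (ht : 1 ≤ t) : 3 / 2 * ((t : ℝ) - 1) ≤ F (2 * t) * Real.log t := by
  have ht' : (1 : ℝ) ≤ t := by exact_mod_cast ht
  have h2t : (1 : ℝ) < ((2 * t : ℕ) : ℝ) := by push_cast; linarith
  have hlog : 0 < Real.log ((2 * t : ℕ) : ℝ) := Real.log_pos h2t
  have h1 : ((8 : ℝ) ^ (t - 1)) ≤ (t : ℝ) ^ (t + 1) := by
    exact_mod_cast pow_ineq_B ht
  have h2 := Real.log_le_log (by positivity) h1
  rw [Real.log_pow, Real.log_pow, log_eight] at h2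
  have h3 : ((t - 1 : ℕ) : ℝ) = t - 1 := by
    rw [Nat.cast_sub ht]; push_cast; ring
  rw [h3] at h2
  have h4 : Real.log ((2 * t : ℕ) : ℝ) = Real.log 2 + Real.log t := by
    push_cast
    rw [Real.log_mul (by norm_num) (by linarith)]
  unfold F
  have h5 : (((2 * t : ℕ) : ℝ) - 1) / Real.log ((2 * t : ℕ) : ℝ) * Real.log t =
      (((2 * t : ℕ) : ℝ) - 1) * Real.log t / Real.log ((2 * t : ℕ) : ℝ) := by ring
  rw [h5, le_div_iff₀ hlog, h4]
  push_cast at h2 ⊢
  nlinarith

theorem log_le {s : ℕ} (hs : 2 ≤ s) : Real.log s ≤ (2 * (s : ℝ) - 3) * Real.log 2 := by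
  have h1 : s ≤ 2 ^ (2 * s - 3) := by
    obtain ⟨r, rfl⟩ : ∃ r, s = r + 2 := ⟨s - 2, by omega⟩
    have h2 : 2 * (r + 2) - 3 = 2 * r + 1 := by omega
    rw [h2]
    have h3 : r + 1 ≤ 2 ^ r := Nat.succ_le_of_lt Nat.lt_two_pow_self
    have h4 : 2 ^ (2 * r + 1) = 2 * (2 ^ r * 2 ^ r) := by ring
    rw [h4]
    nlinarith [Nat.one_le_two_pow (n := r)]
  have h2 : (s : ℝ) ≤ 2 ^ (2 * s - 3) := by exact_mod_cast h1
  have h3 := Real.log_le_log (by positivity) h2
  rw [Real.log_pow] at h3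
  have h4 : ((2 * s - 3 : ℕ) : ℝ) = 2 * s - 3 := by
    rw [Nat.cast_sub (by omega)]; push_cast; ring
  rwa [h4] at h3

/-- Layers. -/
theorem sum_eq_layers (ψ : ℕ → ℝ) (h0 : ψ 0 = 0) (M : ℕ) (A : Multiset ℕ) (hA : ∀ t ∈ A, t ≤ M) :
    (A.map ψ).sum = ∑ x ∈ range M, (ψ (x + 1) - ψ x) * (A.countP fun t => x + 1 ≤ t) := by
  induction A using Multiset.induction_on with
  | empty => simp
  | cons t A ih =>
    have ht := hA t (Multiset.mem_cons_self t A)
    rw [Multiset.map_cons, Multiset.sum_cons, ih fun s hs => hA s (Multiset.mem_cons_of_mem hs)]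
    have h1 : ∀ x : ℕ, (((t ::ₘ A).countP fun t => x + 1 ≤ t : ℕ) : ℝ) =
        (A.countP fun t => x + 1 ≤ t) + if x + 1 ≤ t then 1 else 0 := by
      intro x
      rw [Multiset.countP_cons]
      push_cast
      rfl
    simp_rw [h1, mul_add]
    rw [sum_add_distrib, add_comm]
    congr 1
    simp only [mul_ite, mul_one, mul_zero]
    rw [← sum_filter]
    have h2 : (range M).filter (fun x => x + 1 ≤ t) = range t := by
      ext x
      simp only [mem_filter, mem_range]
      omega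
    rw [h2, sum_range_sub, h0, sub_zero]

/-- Comparison of sums of a monotone function, with a defect below `m`. -/
theorem sum_le_sum_layers (ψ : ℕ → ℝ) (h0 : ψ 0 = 0) (hψ : ∀ x, ψ x ≤ ψ (x + 1)) (A B : Multiset ℕ)
    (m δ : ℕ) (h : ∀ x, A.countP (fun t => x + 1 ≤ t) ≤
      B.countP (fun t => x + 1 ≤ t) + if x + 1 ≤ m then δ else 0) :
    (A.map ψ).sum ≤ (B.map ψ).sum + δ * ψ m := by
  obtain ⟨M, hM⟩ : ∃ M, ∀ t ∈ A + B + {m}, t ≤ M :=
    ⟨(A + B + {m}).sum, fun t ht => Multiset.single_le_sum (fun _ _ => Nat.zero_le _) t ht⟩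
  have hA : ∀ t ∈ A, t ≤ M := fun t ht => hM t (by simp [ht])
  have hB : ∀ t ∈ B, t ≤ M := fun t ht => hM t (by simp [ht])
  have hm : m ≤ M := hM m (by simp)
  have h1 := sum_eq_layers ψ h0 M (Multiset.replicate δ m) (by
    intro t ht
    rw [Multiset.eq_of_mem_replicate ht]
    exact hm)
  rw [Multiset.map_replicate, Multiset.sum_replicate, nsmul_eq_mul] at h1
  rw [sum_eq_layers ψ h0 M A hA, sum_eq_layers ψ h0 M B hB, h1, ← sum_add_distrib]
  refine sum_le_sum fun x _ => ?_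
  rw [← mul_add]
  apply mul_le_mul_of_nonneg_left _ (by linarith [hψ x])
  have h2 : (Multiset.replicate δ m).countP (fun t => x + 1 ≤ t) = if x + 1 ≤ m then δ else 0 := by
    split_ifs with h3
    · rw [Multiset.countP_eq_card.2]
      · simp
      · intro t ht
        rw [Multiset.eq_of_mem_replicate ht]
        exact h3
    · rw [Multiset.countP_eq_zero]
      intro t ht
      rw [Multiset.eq_of_mem_replicate ht]
      exact h3
  rw [h2]
  exact_mod_cast h x

theorem F0_zero : F0 0 = 0 := by simp [F0]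

theorem F0_pos {t : ℕ} (ht : 0 < t) : F0 t = F t := by simp [F0, ht.ne']

/-- `log` is the sum of the von Mangoldt function. -/
theorem sum_phi_eq (φ : ℕ → ℝ) (M : ℕ) (X : Multiset ℕ) (hX : ∀ t ∈ X, 0 < t ∧ t ≤ M) :
    (X.map fun t : ℕ => φ t * Real.log t).sum =
      ∑ g ∈ Icc 1 M, Λ g * (X.map fun t => if g ∣ t then φ t else 0).sum := by
  induction X using Multiset.induction_on with
  | empty => simp
  | cons t X ih =>
    have ht := hX t (Multiset.mem_cons_self t X)
    simp only [Multiset.map_cons, Multiset.sum_cons]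
    rw [ih fun s hs => hX s (Multiset.mem_cons_of_mem hs)]
    simp_rw [mul_add]
    rw [sum_add_distrib]
    congr 1
    rw [← vonMangoldt_sum, mul_sum]
    simp only [mul_ite, mul_zero]
    rw [← sum_filter]
    refine sum_congr_of_eq_on_inter ?_ ?_ ?_
    · intro g hg hg2
      exfalso
      apply hg2
      rw [Nat.mem_divisors] at hg
      rw [mem_filter, mem_Icc]
      exact ⟨⟨Nat.pos_of_dvd_of_pos hg.1 ht.1, (Nat.le_of_dvd ht.1 hg.1).trans ht.2⟩, hg.1⟩
    · intro g hg hg2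
      exfalso
      apply hg2
      rw [mem_filter] at hg
      rw [Nat.mem_divisors]
      exact ⟨hg.2, ht.1.ne'⟩
    · intro g _ _
      rw [mul_comm]

theorem map_ite_eq (g : ℕ) (φ : ℕ → ℝ) (X : Multiset ℕ) :
    (X.map fun t => if g ∣ t then φ t else 0).sum = ((X.filter fun t => g ∣ t).map φ).sum := by
  induction X using Multiset.induction_on with
  | empty => simp
  | cons t X ih =>
    rw [Multiset.map_cons, Multiset.sum_cons, ih]
    by_cases h : g ∣ t
    · rw [Multiset.filter_cons_of_pos _ h, Multiset.map_cons, Multiset.sum_cons, if_pos h]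
    · rw [Multiset.filter_cons_of_neg _ h, if_neg h, zero_add]

/-- The comparison for one prime power. -/
theorem compare (g : ℕ) (X Y : Multiset ℕ) (hX : ∀ t ∈ X, 0 < t) (hY : ∀ t ∈ Y, 0 < t) (m δ : ℕ)
    (hm : ∀ t ∈ X, t ≤ m)
    (h : ∀ x, x ≤ m → X.countP (fun t => g ∣ t ∧ x ≤ t) ≤
      Y.countP (fun t => g ∣ t ∧ 2 * x ≤ t) + δ) :
    (X.map fun t => if g ∣ t then F (2 * t) else 0).sum ≤
      (Y.map fun t => if g ∣ t then F t else 0).sum + δ * F0 (2 * m) := by
  rw [map_ite_eq, map_ite_eq g F]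
  have h1 := sum_le_sum_layers F0 F0_zero F0_mono_succ
    ((X.filter fun t => g ∣ t).map fun t => 2 * t) (Y.filter fun t => g ∣ t) (2 * m) δ (by
      intro y
      rw [Multiset.countP_map, ← Multiset.countP_eq_card_filter, Multiset.countP_filter,
        Multiset.countP_filter]
      by_cases hy : y + 1 ≤ 2 * m
      · rw [if_pos hy]
        have h2 := h ((y + 2) / 2) (by omega)
        refine le_trans (le_of_eq ?_) (h2.trans (Nat.add_le_add_right ?_ _))
        · apply Multiset.countP_congr rfl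
          intro t _
          apply propext
          constructor
          · rintro ⟨h3, h4⟩
            exact ⟨h4, by omega⟩
          · rintro ⟨h3, h4⟩
            exact ⟨by omega, h3⟩
        · rw [Multiset.countP_eq_card_filter, Multiset.countP_eq_card_filter]
          apply Multiset.card_le_card
          apply Multiset.monotone_filter_right
          rintro t ⟨h3, h4⟩
          exact ⟨by omega, h3⟩
      · rw [if_neg hy, add_zero]
        refine le_trans (le_of_eq ?_) (Nat.zero_le _)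
        rw [Multiset.countP_eq_zero]
        rintro t ht ⟨h3, -⟩
        have := hm t ht
        omega)
  rw [Multiset.map_map] at h1
  have h2 : ((X.filter fun t => g ∣ t).map (F0 ∘ fun t => 2 * t)).sum =
      ((X.filter fun t => g ∣ t).map fun t => F (2 * t)).sum := by
    congr 1
    apply Multiset.map_congr rfl
    intro t ht
    have := hX t (Multiset.mem_of_mem_filter ht)
    show F0 (2 * t) = F (2 * t)
    rw [F0_pos (by omega)]
  have h3 : ((Y.filter fun t => g ∣ t).map F0).sum = ((Y.filter fun t => g ∣ t).map F).sum := by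
    congr 1
    apply Multiset.map_congr rfl
    intro t ht
    rw [F0_pos (hY t (Multiset.mem_of_mem_filter ht))]
  rw [h2, h3] at h1
  exact h1

theorem sum_sub_one (Z : Multiset ℕ) : (Z.map fun t : ℕ => (t : ℝ) - 1).sum =
    (Z.sum : ℝ) - Multiset.card Z := by
  induction Z using Multiset.induction_on with
  | empty => simp
  | cons t Z ih =>
    simp only [Multiset.map_cons, Multiset.sum_cons, Multiset.card_cons, ih]
    push_cast
    ring

theorem sum_sub_one_nonneg {Z : Multiset ℕ} (hZ : ∀ t ∈ Z, 0 < t) :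
    0 ≤ (Z.map fun t : ℕ => (t : ℝ) - 1).sum := by
  apply Multiset.sum_nonneg
  intro x hx
  obtain ⟨t, ht, rfl⟩ := Multiset.mem_map.1 hx
  have : (1 : ℝ) ≤ t := by exact_mod_cast hZ t ht
  linarith

/-- The sum of the degrees in terms of the sum over prime powers. -/
theorem lower_bound (X Y : Multiset ℕ) (hX : ∀ t ∈ X, 0 < t) (hY : ∀ t ∈ Y, 0 < t) (m : ℕ)
    (hm0 : 0 < m) (hm : ∀ t ∈ X, t ≤ m) (u b : ℕ) (hu : 0 < u) (hb : b ∣ u)
    (h : ∀ p k x : ℕ, p.Prime → 1 ≤ k → x ≤ m →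
      X.countP (fun t => p ^ k ∣ t ∧ x ≤ t) ≤ Y.countP (fun t => p ^ k ∣ t ∧ 2 * x ≤ t) +
        if p ^ k ∣ u ∧ ¬ p ^ k ∣ b then 1 else 0) :
    3 / 2 * (X.map fun t : ℕ => (t : ℝ) - 1).sum ≤
      (Y.map fun t : ℕ => (t : ℝ) - 1).sum + (Real.log u - Real.log b) * F (2 * m) := by
  obtain ⟨M, hM⟩ : ∃ M, ∀ t ∈ X + Y + {u}, t ≤ M :=
    ⟨(X + Y + {u}).sum, fun t ht => Multiset.single_le_sum (fun _ _ => Nat.zero_le _) t ht⟩
  have hX' : ∀ t ∈ X, 0 < t ∧ t ≤ M := fun t ht => ⟨hX t ht, hM t (by simp [ht])⟩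
  have hY' : ∀ t ∈ Y, 0 < t ∧ t ≤ M := fun t ht => ⟨hY t ht, hM t (by simp [ht])⟩
  have huM : u ≤ M := hM u (by simp)
  have hb0 : 0 < b := Nat.pos_of_dvd_of_pos hb hu
  have h1 : (Y.map fun t : ℕ => (t : ℝ) - 1).sum = (Y.map fun t : ℕ => F t * Real.log t).sum := by
    congr 1
    apply Multiset.map_congr rfl
    intro t ht
    rw [F_mul_log (hY t ht)]
  have h2 : 3 / 2 * (X.map fun t : ℕ => (t : ℝ) - 1).sum ≤
      (X.map fun t : ℕ => F (2 * t) * Real.log t).sum := by
    rw [← Multiset.sum_map_mul_left]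
    apply Multiset.sum_map_le_sum_map
    intro t ht
    exact le_F_two_mul (hX t ht)
  refine h2.trans ?_
  rw [h1, sum_phi_eq (fun t => F (2 * t)) M X hX', sum_phi_eq F M Y hY']
  have h3 : Real.log u - Real.log b = ∑ g ∈ Icc 1 M, Λ g * if g ∣ u ∧ ¬ g ∣ b then 1 else 0 := by
    rw [← vonMangoldt_sum, ← vonMangoldt_sum]
    have h4 : b.divisors ⊆ u.divisors := Nat.divisors_subset_of_dvd hu.ne' hb
    rw [← Finset.sum_sdiff h4, add_sub_cancel_right]
    simp only [mul_ite, mul_one, mul_zero]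
    rw [← sum_filter]
    apply Finset.sum_congr _ fun _ _ => rfl
    ext g
    simp only [mem_sdiff, Nat.mem_divisors, mem_filter, mem_Icc]
    constructor
    · rintro ⟨⟨h5, -⟩, h6⟩
      refine ⟨⟨Nat.pos_of_dvd_of_pos h5 hu, (Nat.le_of_dvd hu h5).trans huM⟩, h5, ?_⟩
      intro h7
      exact h6 ⟨h7, hb0.ne'⟩
    · rintro ⟨-, h5, h6⟩
      exact ⟨⟨h5, hu.ne'⟩, fun h7 => h6 h7.1⟩
  rw [h3, Finset.sum_mul, ← sum_add_distrib]
  refine sum_le_sum fun g _ => ?_
  by_cases hpp : IsPrimePow g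
  · rw [mul_assoc, ← mul_add]
    apply mul_le_mul_of_nonneg_left _ vonMangoldt_nonneg
    obtain ⟨p, k, hp, hk, rfl⟩ := (isPrimePow_nat_iff g).1 hpp
    have h5 := compare (p ^ k) X Y hX hY m (if p ^ k ∣ u ∧ ¬ p ^ k ∣ b then 1 else 0) hm
      (fun x hx => h p k x hp hk hx)
    rw [F0_pos (by omega)] at h5
    push_cast at h5
    exact h5
  · rw [vonMangoldt_eq_zero_iff.2 hpp, zero_mul, zero_mul, zero_mul, zero_mul, add_zero]

/-- **The inequality with the factor two.** -/
theorem two_sum_le (X Y : Multiset ℕ) (hX : ∀ t ∈ X, 0 < t) (hY : ∀ t ∈ Y, 0 < t)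
    (h : ∀ p k x : ℕ, p.Prime → 1 ≤ k →
      (X.countP fun t => p ^ k ∣ t ∧ x ≤ t) ≤ Y.countP fun t => p ^ k ∣ t ∧ 2 * x ≤ t)
    {b : ℕ} (hbX : b ∈ X) (hb : ∀ t ∈ X, t ≤ b) :
    X.sum + Multiset.card Y + b ≤ Y.sum + Multiset.card X + 1 := by
  have hb0 := hX b hbX
  have key : (X.map fun t : ℕ => (t : ℝ) - 1).sum + ((b : ℝ) - 1) ≤
      (Y.map fun t : ℕ => (t : ℝ) - 1).sum := by
    rcases Nat.lt_or_ge b 2 with hb1 | hb2
    · -- all elements are one
      have h1 : (X.map fun t : ℕ => (t : ℝ) - 1).sum = 0 := by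
        apply Multiset.sum_eq_zero
        intro x hx
        obtain ⟨t, ht, rfl⟩ := Multiset.mem_map.1 hx
        have h2 : t = 1 := by
          have := hb t ht
          have := hX t ht
          omega
        rw [h2]; norm_num
      have h2 : b = 1 := by omega
      rw [h1, h2, Nat.cast_one]
      have := sum_sub_one_nonneg hY
      linarith
    have hbr : (2 : ℝ) ≤ b := by exact_mod_cast hb2
    -- the case of a large sum
    have hlb := lower_bound X Y hX hY b hb0 hb 1 1 one_pos dvd_rfl (by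
      intro p k x hp hk _
      rw [if_neg (by tauto), add_zero]
      exact h p k x hp hk)
    simp only [Nat.cast_one, Real.log_one, sub_self, zero_mul, add_zero] at hlb
    obtain ⟨W, rfl⟩ := Multiset.exists_cons_of_mem hbX
    rw [Multiset.map_cons, Multiset.sum_cons] at hlb ⊢
    have hW : ∀ t ∈ W, 0 < t := fun t ht => hX t (Multiset.mem_cons_of_mem ht)
    have hW0 := sum_sub_one_nonneg hW
    by_cases hlarge : (b : ℝ) - 1 ≤ (W.map fun t : ℕ => (t : ℝ) - 1).sum
    · linarith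
    push Not at hlarge
    -- an equation of degree at least `2 b`
    have hexists : ∀ p k : ℕ, p.Prime → 1 ≤ k → p ^ k ∣ b → ∃ u ∈ Y, p ^ k ∣ u ∧ 2 * b ≤ u := by
      intro p k hp hk hpb
      have h1 := h p k b hp hk
      have h2 : 0 < (b ::ₘ W).countP fun t => p ^ k ∣ t ∧ b ≤ t :=
        Multiset.countP_pos.2 ⟨b, Multiset.mem_cons_self b W, hpb, le_rfl⟩
      obtain ⟨u, hu, h3⟩ := Multiset.countP_pos.1 (h2.trans_le h1)
      exact ⟨u, hu, h3⟩
    obtain ⟨u, huY, -, hu2⟩ := hexists b.minFac 1 (Nat.minFac_prime (by omega)) le_rfl (by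
      rw [pow_one]; exact Nat.minFac_dvd b)
    obtain ⟨Z, rfl⟩ := Multiset.exists_cons_of_mem huY
    have hZ : ∀ t ∈ Z, 0 < t := fun t ht => hY t (Multiset.mem_cons_of_mem ht)
    have hZ0 := sum_sub_one_nonneg hZ
    have hu2' : 2 * (b : ℝ) ≤ u := by exact_mod_cast hu2
    rw [Multiset.map_cons, Multiset.sum_cons]
    by_cases htwo : ∃ z ∈ Z, 2 * b ≤ z
    · obtain ⟨z, hz, hz2⟩ := htwo
      obtain ⟨Z', rfl⟩ := Multiset.exists_cons_of_mem hz
      have h1 := sum_sub_one_nonneg (Z := Z') fun t ht => hZ t (Multiset.mem_cons_of_mem ht)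
      rw [Multiset.map_cons, Multiset.sum_cons]
      have hz2' : 2 * (b : ℝ) ≤ z := by exact_mod_cast hz2
      linarith
    push Not at htwo
    -- `b` divides `u`
    have hu0 : 0 < u := hY u huY
    have hpu : ∀ p k : ℕ, p.Prime → 1 ≤ k → p ^ k ∣ b → p ^ k ∣ u := by
      intro p k hp hk hpb
      obtain ⟨u', hu', h1, h2⟩ := hexists p k hp hk hpb
      rcases Multiset.mem_cons.1 hu' with h3 | h3
      · rwa [h3] at h1
      · have := htwo u' h3
        omega
    have hbu : b ∣ u := by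
      rw [Nat.dvd_iff_prime_pow_dvd_dvd]
      intro p k hp hpb
      rcases Nat.eq_zero_or_pos k with hk | hk
      · rw [hk, pow_zero]; exact one_dvd _
      · exact hpu p k hp hk hpb
    obtain ⟨s, rfl⟩ := hbu
    have hs2 : 2 ≤ s := by
      by_contra hcon
      have h1 : s ≤ 1 := by omega
      have h2 : b * s ≤ b * 1 := Nat.mul_le_mul_left b h1
      omega
    have hsr : (2 : ℝ) ≤ s := by exact_mod_cast hs2
    rcases Multiset.empty_or_exists_mem W with hWe | ⟨t₀, ht₀⟩
    · rw [hWe, Multiset.map_zero, Multiset.sum_zero]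
      linarith
    -- the largest element of `W`
    obtain ⟨w, hwW, hw⟩ : ∃ w ∈ W, ∀ t ∈ W, t ≤ w := by
      obtain ⟨w, hw1, hw2⟩ := Finset.exists_max_image W.toFinset id ⟨t₀, Multiset.mem_toFinset.2 ht₀⟩
      exact ⟨w, Multiset.mem_toFinset.1 hw1, fun t ht => hw2 t (Multiset.mem_toFinset.2 ht)⟩
    have hw0 := hW w hwW
    have hw0r : (1 : ℝ) ≤ w := by exact_mod_cast hw0
    have hwsum : (w : ℝ) - 1 ≤ (W.map fun t : ℕ => (t : ℝ) - 1).sum := by
      obtain ⟨W', rfl⟩ := Multiset.exists_cons_of_mem hwW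
      rw [Multiset.map_cons, Multiset.sum_cons]
      have := sum_sub_one_nonneg (Z := W') fun t ht => hW t (Multiset.mem_cons_of_mem ht)
      linarith
    have hwb : w + 1 ≤ b := by
      have h1 : (w : ℝ) < b := by linarith
      exact_mod_cast h1
    have hwbr : (w : ℝ) + 1 ≤ b := by exact_mod_cast hwb
    have h1 := lower_bound W Z hW hZ w hw0 hw (b * s) b hu0 (Dvd.intro _ rfl) (by
      intro p k x hp hk hxw
      have h2 := h p k x hp hk
      rw [Multiset.countP_cons, Multiset.countP_cons] at h2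
      by_cases hpb : p ^ k ∣ b
      · rw [if_pos ⟨hpb, by omega⟩] at h2
        rw [if_neg (by tauto)]
        have h3 : (if p ^ k ∣ b * s ∧ 2 * x ≤ b * s then 1 else 0) ≤ 1 := by split_ifs <;> omega
        omega
      · by_cases hpu' : p ^ k ∣ b * s
        · rw [if_pos ⟨hpu', hpb⟩]
          have h3 : (if p ^ k ∣ b * s ∧ 2 * x ≤ b * s then 1 else 0) ≤ 1 := by split_ifs <;> omega
          omega
        · have h3 : ¬ (p ^ k ∣ b * s ∧ 2 * x ≤ b * s) := fun h => hpu' h.1
          have h4 : ¬ (p ^ k ∣ b ∧ x ≤ b) := fun h => hpb h.1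
          have h5 : ¬ (p ^ k ∣ b * s ∧ ¬ p ^ k ∣ b) := fun h => hpu' h.1
          rw [if_neg h3, if_neg h4] at h2
          rw [if_neg h5]
          omega)
    have h4 : Real.log ((b * s : ℕ) : ℝ) - Real.log b = Real.log s := by
      push_cast
      rw [Real.log_mul (by positivity) (by positivity)]
      ring
    rw [h4] at h1
    have h5 := F_two_mul_le hw0
    have h6 := log_le hs2
    have h7 : 0 ≤ F (2 * w) := by
      rcases F_nonneg (2 * w) with h | h
      · exact h
      · omega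
    have h8 := log_two_pos
    have h9 : Real.log s * F (2 * w) ≤ ((s : ℝ) - 3 / 2) * (w + 1) := by
      calc Real.log s * F (2 * w) ≤ ((2 * (s : ℝ) - 3) * Real.log 2) * F (2 * w) :=
            mul_le_mul_of_nonneg_right h6 h7
        _ = ((s : ℝ) - 3 / 2) * (F (2 * w) * (2 * Real.log 2)) := by ring
        _ ≤ ((s : ℝ) - 3 / 2) * (w + 1) := mul_le_mul_of_nonneg_left h5 (by linarith)
    push_cast
    nlinarith
  rw [sum_sub_one, sum_sub_one] at key
  have h3 : ((X.sum + Multiset.card Y + b : ℕ) : ℝ) ≤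
      ((Y.sum + Multiset.card X + 1 : ℕ) : ℝ) := by
    simp only [Nat.cast_add, Nat.cast_one]
    linarith
  exact_mod_cast h3

end Pool.Agent.H930.VA
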