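import Pool.Agent.H930.VA.Count
import Pool.Agent.H930.Fuj.Merge

/-!
# Greedy merging, relations

The same process as in `Pool.Agent.H930.Fuj.Merge`. If the degree `e` is large then, moreover, the
monomials of degree `e` in the coordinates of the support generate all relations: if all the
monomials of degree `e` have the same value at a family of units then this family is
`τ ^ g t`.
-/

set_option autoImplicit false
set_option linter.unusedSectionVars false

namespace Pool.Agent.H930.VA

open MvPolynomial Finset Pool.Agent.H930.Fuj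

/-- A common root of two elements of an abelian group. -/
theorem exists_root {G : Type} [CommGroup G] {p q : ℕ} (hpq : Nat.Coprime p q) (y z : G)
    (h : y ^ q = z ^ p) : ∃ ζ : G, y = ζ ^ p ∧ z = ζ ^ q := by
  have h1 : (1 : ℤ) = p * Nat.gcdA p q + q * Nat.gcdB p q := by
    have := Nat.gcd_eq_gcd_ab p q
    rwa [hpq, Nat.cast_one] at this
  set α := Nat.gcdA p q with hα
  set β := Nat.gcdB p q with hβ
  have h' : y ^ (q : ℤ) = z ^ (p : ℤ) := by
    rw [zpow_natCast, zpow_natCast]; exact h
  refine ⟨y ^ α * z ^ β, ?_, ?_⟩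
  · calc y = y ^ (1 : ℤ) := (zpow_one y).symm
      _ = y ^ ((p : ℤ) * α) * (y ^ (q : ℤ)) ^ β := by
          rw [← zpow_mul, ← zpow_add, ← h1]
      _ = y ^ ((p : ℤ) * α) * (z ^ (p : ℤ)) ^ β := by rw [h']
      _ = (y ^ α * z ^ β) ^ (p : ℤ) := by
          rw [mul_zpow, ← zpow_mul, ← zpow_mul, ← zpow_mul, mul_comm (p : ℤ) α, mul_comm (p : ℤ) β]
      _ = (y ^ α * z ^ β) ^ p := zpow_natCast _ _
  · calc z = z ^ (1 : ℤ) := (zpow_one z).symm
      _ = (z ^ (p : ℤ)) ^ α * z ^ ((q : ℤ) * β) := by
          rw [← zpow_mul, ← zpow_add, ← h1]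
      _ = (y ^ (q : ℤ)) ^ α * z ^ ((q : ℤ) * β) := by rw [h']
      _ = (y ^ α * z ^ β) ^ (q : ℤ) := by
          rw [mul_zpow, ← zpow_mul, ← zpow_mul, ← zpow_mul, mul_comm (q : ℤ) α, mul_comm (q : ℤ) β]
      _ = (y ^ α * z ^ β) ^ q := zpow_natCast _ _

variable {ι κ : Type} [Fintype ι] [DecidableEq ι] [Fintype κ]

variable {a : ι → ℕ} {d : κ → ℕ} {f : κ → MvPolynomial ι ℂ} {v : ι → ℂ}

theorem exists_multiset (ha : ∀ i, 0 < a i)
    (hd : ∀ j, 0 < d j) (hf : ∀ j, IsWeightedHomogeneous a (f j) (d j))
    (hv : ∀ j, eval v (f j) = 0)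
    (hlcm : ∀ j, ∀ i ∈ (f j).vars, ∀ l ∈ (f j).vars, 2 * Nat.lcm (a i) (a l) ≤ d j)
    (hfree : ∀ z : ι → ℂ, z ≠ 0 → (∀ j, eval z (f j) = 0) →
      ∀ q : ℕ, (∀ i, z i ≠ 0 → q ∣ a i) → q = 1) (n : ℕ) :
    ∀ (R : Finset ι) (r : ι → ι) (g : ι → ℕ), State a v R r g → R.card = n + 1 →
      (∀ q : ℕ, (∀ t ∈ R, q ∣ g t) → q = 1) →
      ∃ L : Multiset ℕ, (∀ l ∈ L, 0 < l) ∧ L.card = n ∧
        (∀ e : ℤ, (L.sum : ℤ) - ∑ t ∈ R, (g t : ℤ) + 1 ≤ e →
          ∃ w : ι → ℕ, e = ∑ t ∈ R, (w t : ℤ) * g t) ∧
        (∀ p k x : ℕ, p.Prime → 1 ≤ k → L.countP (fun t => p ^ k ∣ t ∧ x ≤ t) +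
          (univ.filter fun u => v u = 0 ∧ p ^ k ∣ a u ∧ x ≤ a u).card ≤
          (univ.filter fun j => p ^ k ∣ d j ∧ 2 * x ≤ d j).card) ∧
        (∀ p k : ℕ, p.Prime → 1 ≤ k →
          L.countP (fun t => p ^ k ∣ t) ≤ (R.filter fun t => p ^ k ∣ g t).card) ∧
        (n ≠ 0 → ∀ t ∈ R, ∃ l ∈ L, g t ≤ l) ∧
        (∀ (G : Type) [CommGroup G] (z : ι → G) (c : G) (e : ℤ),
          (∀ l ∈ L, (L.sum : ℤ) - ∑ t ∈ R, (g t : ℤ) + 1 + l ≤ e) →
          (∀ w : ι → ℕ, e = ∑ t ∈ R, (w t : ℤ) * g t → ∏ t ∈ R, z t ^ w t = c) →
          ∃ τ : G, ∀ t ∈ R, z t = τ ^ g t) := by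
  induction n with
  | zero =>
    intro R r g hs hR hg
    obtain ⟨t, rfl⟩ := Finset.card_eq_one.1 hR
    have h1 : g t = 1 := hg (g t) (fun u hu => by rw [mem_singleton.1 hu])
    refine ⟨0, by simp, rfl, ?_, ?_, by simp, by simp, ?_⟩
    · intro e he
      refine ⟨fun _ => e.toNat, ?_⟩
      rw [Finset.sum_singleton, h1] at he ⊢
      simp only [Multiset.sum_zero] at he
      push_cast at he ⊢
      rw [mul_one, Int.toNat_of_nonneg (by linarith)]
    · intro p k x hp hk
      have h2 := card_le hs (Q := p ^ k) (x := x) ha hd hf hv hlcm hfree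
        (le_trans hp.two_le (Nat.le_self_pow (by omega) p)) (by
          intro s hs' t' ht' hne
          rw [mem_singleton] at hs' ht'
          exact absurd (hs'.trans ht'.symm) hne)
      rw [Multiset.countP_zero, zero_add]
      exact le_trans (Nat.le_add_left _ _) h2
    · intro G _ z c e _ _
      refine ⟨z t, ?_⟩
      intro u hu
      rw [mem_singleton.1 hu, h1, pow_one]
  | succ n ih =>
    intro R r g hs hR hg
    -- the minimal pair
    have hne : R.offDiag.Nonempty := by
      rw [← Finset.card_pos, Finset.offDiag_card, hR]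
      have : n + 1 + 1 ≤ (n + 1 + 1) * (n + 1) := Nat.le_mul_of_pos_right _ (by omega)
      have h3 : (n + 1 + 1) * (n + 1 + 1) = (n + 1 + 1) * (n + 1) + (n + 1 + 1) := by ring
      omega
    obtain ⟨⟨s, t⟩, hst, hmin⟩ := Finset.exists_min_image R.offDiag
      (fun z => Nat.lcm (g z.1) (g z.2)) hne
    rw [mem_offDiag] at hst
    obtain ⟨hsR, htR, hst⟩ := hst
    simp only at hsR htR hst hmin
    have hmin' : ∀ u ∈ R, ∀ w ∈ R, u ≠ w → Nat.lcm (g s) (g t) ≤ Nat.lcm (g u) (g w) :=
      fun u hu w hw huw => hmin (u, w) (mem_offDiag.2 ⟨hu, hw, huw⟩)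
    set L₀ := Nat.lcm (g s) (g t) with hL₀
    set h := Nat.gcd (g s) (g t) with hh
    have hgs := hs.pos s hsR
    have hgt := hs.pos t htR
    have hhpos : 0 < h := Nat.gcd_pos_of_pos_left _ hgs
    have hsE : s ∈ R.erase t := mem_erase.2 ⟨hst, hsR⟩
    obtain ⟨L, hL1, hL2, hLa, hLb, hLc, hLe, hLg⟩ := ih (R.erase t) _ _ (hs.merge hsR hst)
      (by rw [Finset.card_erase_of_mem htR, hR]; rfl) (by
        intro q hq
        apply hg
        have hqs := hq s hsE
        rw [Function.update_self] at hqs
        intro u hu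
        by_cases hut : u = t
        · rw [hut]; exact hqs.trans (Nat.gcd_dvd_right _ _)
        by_cases hus : u = s
        · rw [hus]; exact hqs.trans (Nat.gcd_dvd_left _ _)
        have := hq u (mem_erase.2 ⟨hut, hu⟩)
        rwa [Function.update_of_ne hus] at this)
    simp only [← hh] at hLa hLc hLe hLg
    -- the other clusters
    have hsum : ∀ F : ι → ℤ, ∑ u ∈ R, F u = F t + (F s + ∑ u ∈ (R.erase t).erase s, F u) := by
      intro F
      rw [Finset.add_sum_erase _ _ hsE, Finset.add_sum_erase _ _ htR]
    have hsum' : ∀ F : ι → ℤ, ∑ u ∈ R.erase t, F u = F s + ∑ u ∈ (R.erase t).erase s, F u := by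
      intro F
      rw [Finset.add_sum_erase _ _ hsE]
    have hcard : ∀ P : ι → Prop, [DecidablePred P] → (R.filter P).card =
        (if P t then 1 else 0) + ((if P s then 1 else 0) +
          (((R.erase t).erase s).filter P).card) := by
      intro P _
      simp only [Finset.card_filter]
      rw [Finset.add_sum_erase _ (fun i => if P i then 1 else 0) hsE,
        Finset.add_sum_erase _ (fun i => if P i then 1 else 0) htR]
    have hcard' : ∀ P : ι → Prop, [DecidablePred P] → ((R.erase t).filter P).card =
        (if P s then 1 else 0) + (((R.erase t).erase s).filter P).card := by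
      intro P _
      simp only [Finset.card_filter]
      rw [Finset.add_sum_erase _ (fun i => if P i then 1 else 0) hsE]
    have hrest : ∀ u ∈ (R.erase t).erase s, Function.update g s h u = g u := by
      intro u hu
      exact Function.update_of_ne (ne_of_mem_erase hu) _ _
    have hc : ∀ p k : ℕ, p.Prime → 1 ≤ k → (L₀ ::ₘ L).countP (fun t => p ^ k ∣ t) ≤
        (R.filter fun t => p ^ k ∣ g t).card := by
      intro p k hp hk
      have h1 := hLc p k hp hk
      rw [hcard'] at h1
      rw [hcard, Multiset.countP_cons]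
      have h2 : (((R.erase t).erase s).filter fun u => p ^ k ∣ Function.update g s h u) =
          (((R.erase t).erase s).filter fun u => p ^ k ∣ g u) := by
        apply Finset.filter_congr
        intro u hu
        rw [hrest u hu]
      rw [h2, Function.update_self] at h1
      have h3 : p ^ k ∣ L₀ ↔ p ^ k ∣ g s ∨ p ^ k ∣ g t := by
        rw [hL₀]; exact prime_pow_dvd_lcm hp
      have h4 : p ^ k ∣ h ↔ p ^ k ∣ g s ∧ p ^ k ∣ g t := by
        rw [hh]; exact Nat.dvd_gcd_iff
      simp only [h3]
      simp only [h4] at h1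
      by_cases ha1 : p ^ k ∣ g s <;> by_cases ha2 : p ^ k ∣ g t <;>
        simp [ha1, ha2] at h1 ⊢ <;> omega
    -- two generators
    obtain ⟨p', hp'⟩ : h ∣ g s := hh ▸ Nat.gcd_dvd_left (g s) (g t)
    obtain ⟨q', hq'⟩ : h ∣ g t := hh ▸ Nat.gcd_dvd_right (g s) (g t)
    have hp0 : 0 < p' := Nat.pos_of_ne_zero (by
      intro h0
      rw [h0, mul_zero] at hp'
      omega)
    have hq0 : 0 < q' := Nat.pos_of_ne_zero (by
      intro h0
      rw [h0, mul_zero] at hq'
      omega)
    have hcop : Nat.Coprime p' q' := by
      have h1 : h = h * Nat.gcd p' q' := by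
        conv_lhs => rw [hh]
        rw [hp', hq', Nat.gcd_mul_left]
      have h2 : h * Nat.gcd p' q' = h * 1 := by omega
      exact Nat.eq_of_mul_eq_mul_left hhpos h2
    have hl : L₀ = h * (p' * q') := by
      rw [hL₀, hp', hq', Nat.lcm_mul_left, (Nat.Coprime.lcm_eq_mul hcop)]
    refine ⟨L₀ ::ₘ L, ?_, by rw [Multiset.card_cons, hL2], ?_, ?_, hc, ?_, ?_⟩
    · intro l hl
      rcases Multiset.mem_cons.1 hl with h1 | h1
      · rw [h1]; exact Nat.lcm_pos hgs hgt
      · exact hL1 l h1
    · -- the semigroup
      intro e he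
      rw [hsum, Multiset.sum_cons, Nat.cast_add] at he
      obtain ⟨w, hw⟩ := hLa (e - (L₀ + h - g s - g t)) (by
        rw [hsum', Function.update_self, Finset.sum_congr rfl fun u hu => by rw [hrest u hu]]
        linarith)
      rw [hsum', Function.update_self,
        Finset.sum_congr rfl fun u hu => by rw [hrest u hu]] at hw
      obtain ⟨x, y, hxy⟩ := two_gen hgs hgt hhpos hh.symm (w s)
      refine ⟨fun u => if u = s then x else if u = t then y else w u, ?_⟩
      rw [hsum]
      have h5 : ∑ u ∈ (R.erase t).erase s,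
          (((if u = s then x else if u = t then y else w u : ℕ) : ℤ)) * g u =
          ∑ u ∈ (R.erase t).erase s, (w u : ℤ) * g u := by
        refine Finset.sum_congr rfl fun u hu => ?_
        rw [if_neg (ne_of_mem_erase hu), if_neg (ne_of_mem_erase (mem_of_mem_erase hu))]
      rw [h5]
      simp only [if_true, if_neg hst.symm]
      rw [← hL₀] at hxy
      linarith
    · intro p k x hp hk
      by_cases hx : x ≤ L₀
      · have h1 := card_le hs (Q := p ^ k) (x := x) ha hd hf hv hlcm hfree
          (le_trans hp.two_le (Nat.le_self_pow (by omega) p))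
          (fun u hu w hw huw => hx.trans (hmin' u hu w hw huw))
        have h2 := hc p k hp hk
        have h3 : (L₀ ::ₘ L).countP (fun t => p ^ k ∣ t ∧ x ≤ t) ≤
            (L₀ ::ₘ L).countP (fun t => p ^ k ∣ t) :=
          countP_le_of_imp _ (fun b hb => hb.1)
        omega
      · have h1 := hLb p k x hp hk
        rw [Multiset.countP_cons_of_neg]
        · exact h1
        · intro h2
          exact hx h2.2
    · -- the weights are at most the least common multiples
      intro _ u hu
      by_cases hut : u = t
      · refine ⟨L₀, Multiset.mem_cons_self _ _, ?_⟩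
        rw [hut]
        exact Nat.le_of_dvd (Nat.lcm_pos hgs hgt) (Nat.dvd_lcm_right _ _)
      by_cases hus : u = s
      · refine ⟨L₀, Multiset.mem_cons_self _ _, ?_⟩
        rw [hus]
        exact Nat.le_of_dvd (Nat.lcm_pos hgs hgt) (Nat.dvd_lcm_left _ _)
      have huE : u ∈ R.erase t := mem_erase.2 ⟨hut, hu⟩
      have hn : n ≠ 0 := by
        intro h0
        have h1 : (R.erase t).card = 1 := by
          rw [Finset.card_erase_of_mem htR, hR, h0]
        obtain ⟨y, hy⟩ := Finset.card_eq_one.1 h1
        rw [hy, mem_singleton] at hsE huE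
        exact hus (huE.trans hsE.symm)
      obtain ⟨l, hl, hul⟩ := hLe hn u huE
      rw [Function.update_of_ne hus] at hul
      exact ⟨l, Multiset.mem_cons_of_mem hl, hul⟩
    · -- the relations
      intro G _ z c e he hz
      have hprod : ∀ F : ι → G, ∏ u ∈ R, F u = F t * (F s * ∏ u ∈ (R.erase t).erase s, F u) := by
        intro F
        rw [Finset.mul_prod_erase _ _ hsE, Finset.mul_prod_erase _ _ htR]
      have hprod' : ∀ F : ι → G, ∏ u ∈ R.erase t, F u =
          F s * ∏ u ∈ (R.erase t).erase s, F u := by
        intro F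
        rw [Finset.mul_prod_erase _ _ hsE]
      -- a relation between `z s` and `z t`
      have hrel : z s ^ q' = z t ^ p' := by
        have h1 := he L₀ (Multiset.mem_cons_self _ _)
        have hw : ∃ w : ι → ℕ, e - L₀ = ∑ t ∈ R, (w t : ℤ) * g t := by
          have h0 : ((L₀ ::ₘ L).sum : ℤ) - ∑ t ∈ R, (g t : ℤ) + 1 ≤ e - L₀ := by linarith
          rw [hsum, Multiset.sum_cons, Nat.cast_add] at h0
          obtain ⟨w, hw⟩ := hLa (e - L₀ - (L₀ + h - g s - g t)) (by
            rw [hsum', Function.update_self, Finset.sum_congr rfl fun u hu => by rw [hrest u hu]]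
            linarith)
          rw [hsum', Function.update_self,
            Finset.sum_congr rfl fun u hu => by rw [hrest u hu]] at hw
          obtain ⟨x, y, hxy⟩ := two_gen hgs hgt hhpos hh.symm (w s)
          refine ⟨fun u => if u = s then x else if u = t then y else w u, ?_⟩
          rw [hsum]
          have h5 : ∑ u ∈ (R.erase t).erase s,
              (((if u = s then x else if u = t then y else w u : ℕ) : ℤ)) * g u =
              ∑ u ∈ (R.erase t).erase s, (w u : ℤ) * g u := by
            refine Finset.sum_congr rfl fun u hu => ?_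
            rw [if_neg (ne_of_mem_erase hu), if_neg (ne_of_mem_erase (mem_of_mem_erase hu))]
          rw [h5]
          simp only [if_true, if_neg hst.symm]
          rw [← hL₀] at hxy
          linarith
        obtain ⟨w, hw⟩ := hw
        have hLs : (L₀ : ℤ) = q' * g s := by
          rw [hl, hp']; push_cast; ring
        have hLt : (L₀ : ℤ) = p' * g t := by
          rw [hl, hq']; push_cast; ring
        have h2 := hz (fun u => if u = s then w u + q' else w u) (by
          rw [hsum] at hw ⊢
          have h5 : ∑ u ∈ (R.erase t).erase s, (((if u = s then w u + q' else w u : ℕ) : ℤ)) * g u =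
              ∑ u ∈ (R.erase t).erase s, (w u : ℤ) * g u := by
            refine Finset.sum_congr rfl fun u hu => ?_
            rw [if_neg (ne_of_mem_erase hu)]
          rw [h5, if_neg hst.symm, if_pos rfl]
          push_cast
          linarith)
        have h3 := hz (fun u => if u = t then w u + p' else w u) (by
          rw [hsum] at hw ⊢
          have h5 : ∑ u ∈ (R.erase t).erase s, (((if u = t then w u + p' else w u : ℕ) : ℤ)) * g u =
              ∑ u ∈ (R.erase t).erase s, (w u : ℤ) * g u := by
            refine Finset.sum_congr rfl fun u hu => ?_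
            rw [if_neg (ne_of_mem_erase (mem_of_mem_erase hu))]
          rw [h5, if_neg hst, if_pos rfl]
          push_cast
          linarith)
        rw [hprod] at h2 h3
        have h6 : ∏ u ∈ (R.erase t).erase s, z u ^ (if u = s then w u + q' else w u) =
            ∏ u ∈ (R.erase t).erase s, z u ^ w u := by
          refine Finset.prod_congr rfl fun u hu => ?_
          rw [if_neg (ne_of_mem_erase hu)]
        have h7 : ∏ u ∈ (R.erase t).erase s, z u ^ (if u = t then w u + p' else w u) =
            ∏ u ∈ (R.erase t).erase s, z u ^ w u := by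
          refine Finset.prod_congr rfl fun u hu => ?_
          rw [if_neg (ne_of_mem_erase (mem_of_mem_erase hu))]
        rw [h6, if_neg hst.symm, if_pos rfl, pow_add] at h2
        rw [h7, if_neg hst, if_pos rfl, pow_add] at h3
        set Pr := ∏ u ∈ (R.erase t).erase s, z u ^ w u with hPr
        have h8 : (z t ^ w t * z s ^ w s * Pr) * z s ^ q' = (z t ^ w t * z s ^ w s * Pr) * z t ^ p' := by
          calc (z t ^ w t * z s ^ w s * Pr) * z s ^ q' = z t ^ w t * (z s ^ w s * z s ^ q' * Pr) := by
                simp only [mul_assoc, mul_comm, mul_left_comm]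
            _ = z t ^ w t * z t ^ p' * (z s ^ w s * Pr) := by rw [h2, h3]
            _ = (z t ^ w t * z s ^ w s * Pr) * z t ^ p' := by
                simp only [mul_assoc, mul_comm, mul_left_comm]
        exact mul_left_cancel h8
      obtain ⟨ζ, hζs, hζt⟩ := exists_root hcop (z s) (z t) hrel
      obtain ⟨τ, hτ⟩ := hLg G (Function.update z s ζ) (c * (ζ ^ (p'.pred * q'.pred))⁻¹)
        (e - (L₀ + h - g s - g t)) (by
          intro l hl
          have h1 := he l (Multiset.mem_cons_of_mem hl)
          rw [hsum, Multiset.sum_cons, Nat.cast_add] at h1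
          rw [hsum', Function.update_self, Finset.sum_congr rfl fun u hu => by rw [hrest u hu]]
          linarith) (by
          intro w hw
          rw [hsum', Function.update_self,
            Finset.sum_congr rfl fun u hu => by rw [hrest u hu]] at hw
          obtain ⟨x, y, hxy⟩ := two_gen hgs hgt hhpos hh.symm (w s)
          have h1 := hz (fun u => if u = s then x else if u = t then y else w u) (by
            rw [hsum]
            have h5 : ∑ u ∈ (R.erase t).erase s,
                (((if u = s then x else if u = t then y else w u : ℕ) : ℤ)) * g u =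
                ∑ u ∈ (R.erase t).erase s, (w u : ℤ) * g u := by
              refine Finset.sum_congr rfl fun u hu => ?_
              rw [if_neg (ne_of_mem_erase hu), if_neg (ne_of_mem_erase (mem_of_mem_erase hu))]
            rw [h5]
            simp only [if_true, if_neg hst.symm]
            rw [← hL₀] at hxy
            linarith)
          rw [hprod] at h1
          have h6 : ∏ u ∈ (R.erase t).erase s,
              z u ^ (if u = s then x else if u = t then y else w u) =
              ∏ u ∈ (R.erase t).erase s, z u ^ w u := by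
            refine Finset.prod_congr rfl fun u hu => ?_
            rw [if_neg (ne_of_mem_erase hu), if_neg (ne_of_mem_erase (mem_of_mem_erase hu))]
          rw [h6] at h1
          simp only [if_true, if_neg hst.symm] at h1
          -- exponents of `ζ`
          have h7 : x * p' + y * q' = w s + p'.pred * q'.pred := by
            have h4 : ((p'.pred : ℕ) : ℤ) = p' - 1 := by
              rw [Nat.pred_eq_sub_one]; push_cast [Nat.cast_sub hp0]; ring
            have h5 : ((q'.pred : ℕ) : ℤ) = q' - 1 := by
              rw [Nat.pred_eq_sub_one]; push_cast [Nat.cast_sub hq0]; ring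
            have h8 : (h : ℤ) * ((x * p' + y * q' : ℕ) : ℤ) =
                h * ((w s + p'.pred * q'.pred : ℕ) : ℤ) := by
              rw [← hL₀, hl, hp', hq'] at hxy
              push_cast at hxy ⊢
              rw [h4, h5]
              linear_combination -hxy
            have h9 : (h : ℤ) ≠ 0 := by exact_mod_cast hhpos.ne'
            exact_mod_cast mul_left_cancel₀ h9 h8
          rw [hprod', Function.update_self]
          have h10 : ∏ u ∈ (R.erase t).erase s, Function.update z s ζ u ^ w u =
              ∏ u ∈ (R.erase t).erase s, z u ^ w u := by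
            refine Finset.prod_congr rfl fun u hu => ?_
            rw [Function.update_of_ne (ne_of_mem_erase hu)]
          rw [h10, ← h1, hζs, hζt, ← pow_mul, ← pow_mul, eq_mul_inv_iff_mul_eq]
          set Pr := ∏ u ∈ (R.erase t).erase s, z u ^ w u with hPr
          calc ζ ^ w s * Pr * ζ ^ (p'.pred * q'.pred) = ζ ^ (w s + p'.pred * q'.pred) * Pr := by
                rw [pow_add]
                simp only [mul_assoc, mul_comm, mul_left_comm]
            _ = ζ ^ (x * p' + y * q') * Pr := by rw [h7]
            _ = ζ ^ (q' * y) * (ζ ^ (p' * x) * Pr) := by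
                rw [pow_add, mul_comm p' x, mul_comm q' y]
                simp only [mul_assoc, mul_comm, mul_left_comm])
      refine ⟨τ, ?_⟩
      have hτs := hτ s hsE
      rw [Function.update_self, Function.update_self] at hτs
      intro u hu
      by_cases hut : u = t
      · rw [hut, hζt, hτs, ← pow_mul, ← hq']
      by_cases hus : u = s
      · rw [hus, hζs, hτs, ← pow_mul, ← hp']
      have h1 := hτ u (mem_erase.2 ⟨hut, hu⟩)
      rwa [Function.update_of_ne hus, Function.update_of_ne hus] at h1

end Pool.Agent.H930.VA
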