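import Mathlib

/-!
# Separation of points and of tangent vectors by monomials

Let `v` be a point and `S` its support. If `e - a_i` is in the semigroup generated by the weights
`a_l`, `l ∈ S`, for all `i`, and if the monomials of degree `e` in the coordinates of `S` generate
all relations, then the forms of degree `e` separate `v` from other such points, and separate the
tangent vectors at `v`.
-/

set_option autoImplicit false
set_option linter.unusedSectionVars false

namespace Pool.Agent.H930.VA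

open MvPolynomial Finset

variable {ι : Type} [Fintype ι] [DecidableEq ι]

/-- The monomial with exponents `w`. -/
noncomputable def mon (w : ι → ℕ) : MvPolynomial ι ℂ := monomial (Finsupp.equivFunOnFinite.symm w) 1

theorem mon_hom {a : ι → ℕ} {e : ℕ} {w : ι → ℕ} (h : e = ∑ l, w l * a l) :
    IsWeightedHomogeneous a (mon w) e := by
  apply isWeightedHomogeneous_monomial
  rw [Finsupp.weight_apply, Finsupp.sum_fintype _ _ (fun i => by simp), h]
  rfl

theorem eval_mon (v : ι → ℂ) (w : ι → ℕ) : eval v (mon w) = ∏ l, v l ^ w l := by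
  rw [mon, eval_monomial, one_mul, Finsupp.prod_fintype _ _ (fun i => pow_zero _)]
  rfl

theorem eval_mon_ne_zero {v : ι → ℂ} {w : ι → ℕ} (h : ∀ l, w l ≠ 0 → v l ≠ 0) :
    eval v (mon w) ≠ 0 := by
  rw [eval_mon]
  refine Finset.prod_ne_zero_iff.2 fun i _ => ?_
  by_cases hi : w i = 0
  · rw [hi, pow_zero]; exact one_ne_zero
  · exact pow_ne_zero _ (h i hi)

/-- The degree `e` is very ample at the point `v`. -/
structure Ample (a : ι → ℕ) (e : ℕ) (v : ι → ℂ) : Prop where
  exp : ∀ i, ∃ w : ι → ℕ, (∀ l, w l ≠ 0 → v l ≠ 0) ∧ e = a i + ∑ l, w l * a l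
  rel : ∀ (G : Type) [CommGroup G] (z : ι → G) (c : G),
    (∀ w : ι → ℕ, (∀ l, w l ≠ 0 → v l ≠ 0) → e = ∑ l, w l * a l → ∏ l, z l ^ w l = c) →
    ∃ τ : G, ∀ l, v l ≠ 0 → z l = τ ^ a l

variable {a : ι → ℕ} {e : ℕ} {v : ι → ℂ}

theorem Ample.exists_mon (h : Ample a e v) {i : ι} (hi : v i ≠ 0) :
    ∃ w : ι → ℕ, (∀ l, w l ≠ 0 → v l ≠ 0) ∧ e = ∑ l, w l * a l ∧ w i ≠ 0 := by
  obtain ⟨w, hw, he⟩ := h.exp i
  refine ⟨fun l => if l = i then w l + 1 else w l, ?_, ?_, ?_⟩
  · intro l hl
    by_cases hli : l = i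
    · rw [hli]; exact hi
    · simp only [if_neg hli] at hl
      exact hw l hl
  · rw [he, ← Finset.add_sum_erase _ _ (mem_univ i), ← Finset.add_sum_erase _ _ (mem_univ i)]
    simp only [if_true]
    have h1 : ∑ l ∈ univ.erase i, (if l = i then w l + 1 else w l) * a l =
        ∑ l ∈ univ.erase i, w l * a l := by
      refine Finset.sum_congr rfl fun l hl => ?_
      rw [if_neg (ne_of_mem_erase hl)]
    rw [h1]
    ring
  · simp only [if_true]; exact Nat.succ_ne_zero _

theorem Ample.base (h : Ample a e v) (hv : v ≠ 0) :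
    ∃ s : MvPolynomial ι ℂ, IsWeightedHomogeneous a s e ∧ eval v s ≠ 0 := by
  obtain ⟨i, hi⟩ := Function.ne_iff.1 hv
  obtain ⟨w, hw, he, -⟩ := h.exists_mon hi
  exact ⟨mon w, mon_hom he, eval_mon_ne_zero hw⟩

/-- A functional which vanishes with `φ` is a multiple of `φ`. -/
theorem functional {φ ψ : MvPolynomial ι ℂ → ℂ}
    (hφ : ∀ x s t, φ (s - x • t) = φ s - x * φ t) (hψ : ∀ x s t, ψ (s - x • t) = ψ s - x * ψ t)
    (h : ∀ s, IsWeightedHomogeneous a s e → φ s = 0 → ψ s = 0)
    {s₀ : MvPolynomial ι ℂ} (hs₀ : IsWeightedHomogeneous a s₀ e) (h0 : φ s₀ ≠ 0)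
    {s : MvPolynomial ι ℂ} (hs : IsWeightedHomogeneous a s e) :
    ψ s = (ψ s₀ / φ s₀) * φ s := by
  have h1 := h (s - (φ s / φ s₀) • s₀) (by
    rw [← mem_weightedHomogeneousSubmodule] at hs hs₀ ⊢
    exact Submodule.sub_mem _ hs (Submodule.smul_mem _ _ hs₀)) (by
    rw [hφ, div_mul_cancel₀ _ h0, sub_self])
  rw [hψ, sub_eq_zero] at h1
  rw [h1]
  ring

theorem Ample.points (h : Ample a e v) {w : ι → ℂ} (h' : Ample a e w) (hv : v ≠ 0) (hw : w ≠ 0)
    (hne : ¬ ∃ t : ℂ, t ≠ 0 ∧ ∀ i, w i = t ^ a i * v i) :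
    ∃ s : MvPolynomial ι ℂ, IsWeightedHomogeneous a s e ∧ eval v s = 0 ∧ eval w s ≠ 0 := by
  by_contra hcon
  push Not at hcon
  apply hne
  obtain ⟨s₀, hs₀, h0⟩ := h.base hv
  have hfun : ∀ s, IsWeightedHomogeneous a s e →
      eval w s = (eval w s₀ / eval v s₀) * eval v s := by
    intro s hs
    exact functional (φ := fun s => eval v s) (ψ := fun s => eval w s)
      (fun x s t => by simp [smul_eval]) (fun x s t => by simp [smul_eval])
      (fun s hs h1 => hcon s hs h1) hs₀ h0 hs
  set lam := eval w s₀ / eval v s₀ with hlam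
  have hlam0 : lam ≠ 0 := by
    obtain ⟨s₁, hs₁, h1⟩ := h'.base hw
    intro h2
    apply h1
    rw [hfun s₁ hs₁, h2, zero_mul]
  -- the supports are equal
  have hsupp : ∀ i, v i = 0 ↔ w i = 0 := by
    intro i
    constructor
    · intro hvi
      by_contra hwi
      obtain ⟨x, hx, he, hxi⟩ := h'.exists_mon hwi
      have h1 := hfun _ (mon_hom he)
      have h2 : eval v (mon x) = 0 := by
        rw [eval_mon]
        exact Finset.prod_eq_zero (mem_univ i) (by rw [hvi, zero_pow hxi])
      rw [h2, mul_zero] at h1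
      exact eval_mon_ne_zero hx h1
    · intro hwi
      by_contra hvi
      obtain ⟨x, hx, he, hxi⟩ := h.exists_mon hvi
      have h1 := hfun _ (mon_hom he)
      have h2 : eval w (mon x) = 0 := by
        rw [eval_mon]
        exact Finset.prod_eq_zero (mem_univ i) (by rw [hwi, zero_pow hxi])
      rw [h2] at h1
      exact mul_ne_zero hlam0 (eval_mon_ne_zero hx) h1.symm
  -- the ratios
  let z : ι → ℂˣ := fun i =>
    if hi : v i ≠ 0 then Units.mk0 (w i / v i) (div_ne_zero (fun h => hi ((hsupp i).2 h)) hi) else 1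
  have hz : ∀ i, v i ≠ 0 → ((z i : ℂˣ) : ℂ) = w i / v i := by
    intro i hi
    simp only [z, dif_pos hi, Units.val_mk0]
  obtain ⟨τ, hτ⟩ := h.rel ℂˣ z (Units.mk0 lam hlam0) (by
    intro x hx he
    apply Units.ext
    rw [Units.coe_prod, Units.val_mk0]
    have h1 := hfun _ (mon_hom he)
    rw [eval_mon, eval_mon] at h1
    have h2 : ∏ l, v l ^ x l ≠ 0 := by
      rw [← eval_mon]; exact eval_mon_ne_zero hx
    have h3 : (∏ l, ((z l ^ x l : ℂˣ) : ℂ)) * ∏ l, v l ^ x l = ∏ l, w l ^ x l := by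
      rw [← Finset.prod_mul_distrib]
      refine Finset.prod_congr rfl fun l _ => ?_
      by_cases hl : x l = 0
      · rw [hl]; simp
      · rw [Units.val_pow_eq_pow_val, hz l (hx l hl), ← mul_pow, div_mul_cancel₀ _ (hx l hl)]
    rw [h1] at h3
    exact mul_right_cancel₀ h2 h3)
  refine ⟨(τ : ℂ), τ.ne_zero, ?_⟩
  intro i
  by_cases hi : v i = 0
  · rw [hi, mul_zero, (hsupp i).1 hi]
  · have h1 := congrArg (fun y : ℂˣ => (y : ℂ)) (hτ i hi)
    simp only [Units.val_pow_eq_pow_val] at h1
    rw [hz i hi] at h1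
    rw [← h1, div_mul_cancel₀ _ hi]

theorem Ample.tangent (h : Ample a e v) (hv : v ≠ 0) (u : ι → ℂ)
    (hne : ¬ ∃ τ : ℂ, ∀ i, u i = τ * (a i * v i)) :
    ∃ s : MvPolynomial ι ℂ, IsWeightedHomogeneous a s e ∧ eval v s = 0 ∧
      ∑ i, eval v (pderiv i s) * u i ≠ 0 := by
  by_contra hcon
  push Not at hcon
  apply hne
  obtain ⟨s₀, hs₀, h0⟩ := h.base hv
  have hfun : ∀ s, IsWeightedHomogeneous a s e → ∑ i, eval v (pderiv i s) * u i =
      ((∑ i, eval v (pderiv i s₀) * u i) / eval v s₀) * eval v s := by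
    intro s hs
    exact functional (φ := fun s => eval v s) (ψ := fun s => ∑ i, eval v (pderiv i s) * u i)
      (fun x s t => by simp [smul_eval])
      (fun x s t => by
        simp only [map_sub, Derivation.map_smul, smul_eval, sub_mul, Finset.sum_sub_distrib,
          Finset.mul_sum, mul_assoc])
      (fun s hs h1 => hcon s hs h1) hs₀ h0 hs
  set lam := (∑ i, eval v (pderiv i s₀) * u i) / eval v s₀ with hlam
  -- coordinates outside of the support
  have hout : ∀ i, v i = 0 → u i = 0 := by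
    intro i hi
    obtain ⟨x, hx, he⟩ := h.exp i
    have hhom : IsWeightedHomogeneous a (X i * mon x) e := by
      rw [he]
      exact (isWeightedHomogeneous_X ℂ a i).mul (mon_hom rfl)
    have h1 := hfun _ hhom
    have h2 : eval v (X i * mon x) = 0 := by
      rw [map_mul, eval_X, hi, zero_mul]
    have h3 : ∑ l, eval v (pderiv l (X i * mon x)) * u l = eval v (mon x) * u i := by
      rw [Finset.sum_eq_single i]
      · rw [pderiv_mul, pderiv_X_self, one_mul, map_add, map_mul, eval_X, hi, zero_mul, add_zero]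
      · intro l _ hl
        rw [pderiv_mul, pderiv_X_of_ne hl.symm, zero_mul, zero_add, map_mul, eval_X, hi, zero_mul,
          zero_mul]
      · intro h; exact absurd (mem_univ i) h
    rw [h2, h3, mul_zero] at h1
    exact (mul_eq_zero.1 h1).resolve_left (eval_mon_ne_zero hx)
  -- the logarithmic derivatives
  obtain ⟨τ, hτ⟩ := h.rel (Multiplicative ℂ) (fun i => Multiplicative.ofAdd (u i / v i))
    (Multiplicative.ofAdd lam) (by
    intro x hx he
    have h1 := hfun _ (mon_hom he)
    have h2 : eval v (mon x) ≠ 0 := eval_mon_ne_zero hx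
    have h3 : ∀ i, eval v (pderiv i (mon x)) * u i = (x i * (u i / v i)) * eval v (mon x) := by
      intro i
      by_cases hi : v i = 0
      · have hxi : x i = 0 := by
          by_contra hcon
          exact hx i hcon hi
        rw [hout i hi, hi, hxi]
        simp
      · have h4 := congrArg (eval v) (X_mul_pderiv_monomial (i := i)
          (m := Finsupp.equivFunOnFinite.symm x) (r := (1 : ℂ)))
        rw [map_mul, eval_X, map_nsmul, nsmul_eq_mul] at h4
        change v i * eval v (pderiv i (mon x)) = (x i : ℂ) * eval v (mon x) at h4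
        field_simp
        linear_combination (u i) * h4
    rw [Finset.sum_congr rfl fun i _ => h3 i, ← Finset.sum_mul] at h1
    have h5 := mul_right_cancel₀ h2 h1
    rw [← h5, ofAdd_sum]
    refine Finset.prod_congr rfl fun i _ => ?_
    rw [← ofAdd_nsmul, nsmul_eq_mul])
  refine ⟨Multiplicative.toAdd τ, ?_⟩
  intro i
  by_cases hi : v i = 0
  · rw [hi, mul_zero, mul_zero]
    exact hout i hi
  · have h1 := congrArg Multiplicative.toAdd (hτ i hi)
    rw [toAdd_ofAdd, toAdd_pow, nsmul_eq_mul] at h1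
    rw [div_eq_iff hi] at h1
    rw [h1]
    ring

end Pool.Agent.H930.VA
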